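import Mathlib
import Pool.Agent.TH650.MV.Defs

/-! # GE-L2: inner polytope approximation -/

set_option autoImplicit false

open MeasureTheory Set Multiset Filter Topology
open scoped Pointwise NNReal

noncomputable section

namespace Pool.Agent.TH89.MV

open Pool.Agent.TH650.MV

section
variable {G : Type*} [NormedAddCommGroup G] [NormedSpace ℝ G]

/-- increasing inner approximation -/
def Approx (a : ℕ → ConvexBody G) (A : ConvexBody G) : Prop :=
  Monotone a ∧ (∀ m, a m ≤ A) ∧ (A : Set G) ⊆ closure (⋃ m, (a m : Set G))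

theorem Approx.zero : Approx (fun _ => (0 : ConvexBody G)) 0 := by
  refine ⟨monotone_const, fun _ => le_rfl, ?_⟩
  intro x hx
  exact subset_closure (mem_iUnion.2 ⟨0, hx⟩)

theorem Approx.add {a b : ℕ → ConvexBody G} {A B : ConvexBody G} (ha : Approx a A)
    (hb : Approx b B) : Approx (fun m => a m + b m) (A + B) := by
  obtain ⟨a1, a2, a3⟩ := ha
  obtain ⟨b1, b2, b3⟩ := hb
  refine ⟨?_, ?_, ?_⟩
  · intro m n hmn x hx
    obtain ⟨y, hy, z, hz, rfl⟩ := hx
    exact ⟨y, a1 hmn hy, z, b1 hmn hz, rfl⟩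
  · rintro m x ⟨y, hy, z, hz, rfl⟩
    exact ⟨y, a2 m hy, z, b2 m hz, rfl⟩
  · rintro x ⟨y, hy, z, hz, rfl⟩
    refine map_mem_closure₂ (f := fun x y : G => x + y) continuous_add (a3 hy) (b3 hz) ?_
    intro p hp q hq
    obtain ⟨m, hm⟩ := mem_iUnion.1 hp
    obtain ⟨n, hn⟩ := mem_iUnion.1 hq
    refine mem_iUnion.2 ⟨max m n, ?_⟩
    exact ⟨p, a1 (le_max_left m n) hm, q, b1 (le_max_right m n) hn, rfl⟩

/-- convex hull of a finite set -/
def fh (t : Finset G) (h : t.Nonempty) : ConvexBody G :=
  ⟨convexHull ℝ (t : Set G), convex_convexHull ℝ _, Set.Finite.isCompact_convexHull (𝕜 := ℝ) t.finite_toSet,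
    (Finset.coe_nonempty.2 h).convexHull⟩

end

section
variable {G : Type*} [NormedAddCommGroup G] [NormedSpace ℝ G] [FiniteDimensional ℝ G]

theorem exists_seq (A : ConvexBody G) : ∃ α : ℕ → G, (∀ n, α n ∈ A) ∧
    (A : Set G) ⊆ closure (range α) := by
  have := FiniteDimensional.proper ℝ G
  have : Nonempty (A : Set G) := A.nonempty.to_subtype
  obtain ⟨u, hu⟩ := TopologicalSpace.exists_dense_seq (A : Set G)
  refine ⟨fun n => u n, fun n => (u n).2, ?_⟩
  have h1 := Subtype.dense_iff.1 hu
  rwa [← range_comp] at h1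

theorem exists_approx {A B : ConvexBody G} (h : A ≤ B) :
    ∃ (u w : ℕ → Finset G) (hu : ∀ m, (u m).Nonempty) (hw : ∀ m, (w m).Nonempty),
      (∀ m, u m ⊆ w m) ∧ Approx (fun m => fh (u m) (hu m)) A ∧
        Approx (fun m => fh (w m) (hw m)) B := by
  classical
  obtain ⟨α, hα1, hα2⟩ := exists_seq A
  obtain ⟨β, hβ1, hβ2⟩ := exists_seq B
  have hne : ∀ m, ((Finset.range (m + 1)).image α).Nonempty := fun m =>
    ⟨α 0, Finset.mem_image_of_mem _ (Finset.mem_range.2 (Nat.succ_pos m))⟩
  refine ⟨fun m => (Finset.range (m + 1)).image α,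
    fun m => (Finset.range (m + 1)).image α ∪ (Finset.range (m + 1)).image β,
    hne, fun m => (hne m).mono Finset.subset_union_left, fun m => Finset.subset_union_left,
    ⟨?_, ?_, ?_⟩, ⟨?_, ?_, ?_⟩⟩
  · intro m n hmn
    refine convexHull_mono (Finset.coe_subset.2 (Finset.image_subset_image ?_))
    exact Finset.range_mono (by omega)
  · intro m
    refine convexHull_min ?_ A.convex
    intro x hx
    obtain ⟨k, _, rfl⟩ := Finset.mem_image.1 (Finset.mem_coe.1 hx)
    exact hα1 k
  · refine hα2.trans (closure_mono ?_)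
    rintro _ ⟨k, rfl⟩
    refine mem_iUnion.2 ⟨k, subset_convexHull ℝ _ ?_⟩
    exact Finset.mem_coe.2 (Finset.mem_image_of_mem _ (Finset.mem_range.2 (Nat.lt_succ_self k)))
  · intro m n hmn
    refine convexHull_mono (Finset.coe_subset.2 (Finset.union_subset_union
      (Finset.image_subset_image ?_) (Finset.image_subset_image ?_)))
    · exact Finset.range_mono (by omega)
    · exact Finset.range_mono (by omega)
  · intro m
    refine convexHull_min ?_ B.convex
    intro x hx
    rcases Finset.mem_union.1 (Finset.mem_coe.1 hx) with hx | hx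
    · obtain ⟨k, _, rfl⟩ := Finset.mem_image.1 hx
      exact h (hα1 k)
    · obtain ⟨k, _, rfl⟩ := Finset.mem_image.1 hx
      exact hβ1 k
  · refine hβ2.trans (closure_mono ?_)
    rintro _ ⟨k, rfl⟩
    refine mem_iUnion.2 ⟨k, subset_convexHull ℝ _ ?_⟩
    exact Finset.mem_coe.2 (Finset.mem_union_right _
      (Finset.mem_image_of_mem _ (Finset.mem_range.2 (Nat.lt_succ_self k))))

variable [MeasurableSpace G] [BorelSpace G] (μ : Measure G) [μ.IsAddHaarMeasure]

theorem Approx.tendsto {a : ℕ → ConvexBody G} {A : ConvexBody G} (h : Approx a A) :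
    Tendsto (fun m => vl μ (a m)) atTop (nhds (vl μ A)) := by
  obtain ⟨h1, h2, h3⟩ := h
  have hmono : Monotone (fun m => (a m : Set G)) := fun m n hmn => h1 hmn
  have hconv : Convex ℝ (⋃ m, (a m : Set G)) := by
    refine Directed.convex_iUnion hmono.directed_le fun m => (a m).convex
  have hfin : μ (A : Set G) ≠ ⊤ := A.isCompact.measure_lt_top.ne
  have hU : μ (⋃ m, (a m : Set G)) = μ (A : Set G) := by
    apply le_antisymm
    · exact measure_mono (iUnion_subset h2)
    · refine (measure_mono h3).trans ?_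
      rw [closure_eq_self_union_frontier]
      refine (measure_union_le _ _).trans ?_
      rw [hconv.addHaar_frontier μ, add_zero]
  have h4 := tendsto_measure_iUnion_atTop (μ := μ) hmono
  rw [hU] at h4
  exact (ENNReal.tendsto_toReal hfin).comp h4

end

end Pool.Agent.TH89.MV
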